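import Mathlib

/-!
# The K-convexity constant and the `MM*` product: the exact order of the gap

`K` is a symmetric convex body of `ℝⁿ`, `X_K` the normed space with unit ball `K`. The product
`MM*(K)` is always at least `1`. For every `n ≥ 1` we find `K` with `MM*(K) ≤ 1 + n^(-1/4)` and
K-convexity constant at least `(log n) / 100`. By Pisier's theorem the K-convexity constant of an
`n`-dimensional space is at most `C log (n + 1)`, so the order `log n` is optimal. So `MM*` does not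
control the K-convexity constant at all: not by a multiple, not by any nondecreasing function, not
even when `MM*` is arbitrarily close to its minimal value `1`, and the quotient of the two
invariants is as large as Pisier's bound permits.

Construction. Let `m = D^2`. The Riesz product `∏ (1 + i δ_l / D)`, `l ≤ m`, has absolute value at
most `√e` on the cube, and the coefficients of its first order part have sum `i D`; its Fourier
coefficients have absolute sum `(1 + 1 / D)^m ≤ e^D`. By sampling, its imaginary part is uniformly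
approximated by a combination of `N ≤ e^(3 D + C)` characters. The norm
`sup_δ |∑ x_s χ_s (δ)|` on `ℝ^N` has K-convexity constant at least `3 D / 8`, and the body `K` is the
Euclidean ball of `ℝⁿ` cut by the unit ball of this norm of `N ≤ n^(1/4)` coordinates.

The definitions are those of the starting file `NotEquivalent`, whose bodies give `√(log n)`; the
lemmas on the surface measure are repeated from it.
-/

open MeasureTheory Metric Set
open scoped Pointwise RealInnerProductSpace ENNReal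

namespace Pool.Agent.Results.MP_1453e0_an.OptimalGap

noncomputable section

/-- Euclidean space `ℝⁿ`. -/
abbrev E (n : ℕ) : Type := EuclideanSpace ℝ (Fin n)

/-- A symmetric convex body in `ℝⁿ`: a compact convex set with nonempty interior and `-K = K`. -/
structure IsSymmConvexBody {n : ℕ} (K : Set (E n)) : Prop where
  compact : IsCompact K
  convex : Convex ℝ K
  interior_nonempty : (interior K).Nonempty
  symm : -K = K

/-- The normalized rotation-invariant (surface) measure on the Euclidean unit sphere of `ℝⁿ`. -/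
def sigma (n : ℕ) : Measure (sphere (0 : E n) 1) :=
  ((volume : Measure (E n)).toSphere univ)⁻¹ • (volume : Measure (E n)).toSphere

/-- `M(K) = ∫ ‖x‖_K dσ(x)`, where `‖x‖_K` is the gauge (Minkowski functional) of `K`. -/
def M {n : ℕ} (K : Set (E n)) : ℝ := ∫ x, gauge K (x : E n) ∂(sigma n)

/-- `M*(K) = ∫ sup_{y ∈ K} ⟨x, y⟩ dσ(x)`. -/
def Mstar {n : ℕ} (K : Set (E n)) : ℝ :=
  ∫ x, sSup ((fun y : E n => ⟪(x : E n), y⟫) '' K) ∂(sigma n)

/-- The `MM*` product: the infimum over `T ∈ GL_n(ℝ)` of `M(TK) M*(TK)`. -/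
def MMstar {n : ℕ} (K : Set (E n)) : ℝ :=
  ⨅ T : E n ≃ₗ[ℝ] E n, M (T '' K) * Mstar (T '' K)

/-- Expectation over `m` independent uniform signs. -/
def expect {m : ℕ} {V : Type} [AddCommGroup V] [Module ℝ V] (f : (Fin m → ℤˣ) → V) : V :=
  ((2 : ℝ) ^ m)⁻¹ • ∑ ε, f ε

/-- The Rademacher projection `R_m f = ∑ ε_i E[ε_i f]`. -/
def radProj {m n : ℕ} (f : (Fin m → ℤˣ) → E n) : (Fin m → ℤˣ) → E n :=
  fun ε => ∑ i, ((ε i : ℤ) : ℝ) • expect (fun δ => ((δ i : ℤ) : ℝ) • f δ)

/-- The norm of `L_2({-1,1}^m; X_K)`. -/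
def L2norm {m n : ℕ} (K : Set (E n)) (f : (Fin m → ℤˣ) → E n) : ℝ :=
  √(expect fun ε => gauge K (f ε) ^ 2)

/-- The K-convexity constant of `X_K`: the supremum over `m` of the operator norm of the
Rademacher projection on `L_2({-1,1}^m; X_K)`. -/
def Kconv {n : ℕ} (K : Set (E n)) : ℝ≥0∞ :=
  ⨆ (m : ℕ) (f : (Fin m → ℤˣ) → E n) (_ : L2norm K f ≤ 1), ENNReal.ofReal (L2norm K (radProj f))

/-! ### The surface measure -/

/-- restriction of a linear isometry to the unit sphere -/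
def sphMap {n : ℕ} (U : E n ≃ₗᵢ[ℝ] E n) (x : sphere (0 : E n) 1) : sphere (0 : E n) 1 :=
  ⟨U x, by simp⟩

lemma continuous_sphMap {n : ℕ} (U : E n ≃ₗᵢ[ℝ] E n) : Continuous (sphMap U) :=
  (U.continuous.comp continuous_subtype_val).subtype_mk _

lemma toSphere_preimage {n : ℕ} (U : E n ≃ₗᵢ[ℝ] E n) {s : Set (sphere (0 : E n) 1)}
    (hs : MeasurableSet s) :
    (volume : Measure (E n)).toSphere (sphMap U ⁻¹' s) = (volume : Measure (E n)).toSphere s := by
  rw [Measure.toSphere_apply' _ hs,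
    Measure.toSphere_apply' _ ((continuous_sphMap U).measurable hs)]
  congr 1
  have h : (Ioo (0 : ℝ) 1 • ((↑) '' (sphMap U ⁻¹' s)) : Set (E n)) =
      U ⁻¹' (Ioo (0 : ℝ) 1 • ((↑) '' s)) := by
    ext x
    simp only [mem_smul, mem_image, mem_preimage, Subtype.exists, exists_and_right,
      exists_eq_right]
    constructor
    · rintro ⟨r, hr, y, ⟨hy, hys⟩, rfl⟩
      exact ⟨r, hr, U y, ⟨by simpa using hy, hys⟩, by simp⟩
    · rintro ⟨r, hr, y, ⟨hy, hys⟩, hxy⟩
      refine ⟨r, hr, U.symm y, ⟨by simpa using hy, ?_⟩, ?_⟩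
      · have : sphMap U ⟨U.symm y, by simpa using hy⟩ = ⟨y, hy⟩ := by
          simp [sphMap]
        rw [this]; exact hys
      · apply U.injective
        rw [← hxy]; simp
  rw [h]
  exact (U.measurePreserving).measure_preimage_emb U.toHomeomorph.measurableEmbedding _

lemma sigma_map {n : ℕ} (U : E n ≃ₗᵢ[ℝ] E n) : (sigma n).map (sphMap U) = sigma n := by
  ext s hs
  rw [Measure.map_apply (continuous_sphMap U).measurable hs]
  simp only [sigma, Measure.smul_apply]
  rw [toSphere_preimage U hs]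

instance {n : ℕ} : IsFiniteMeasure (sigma n) := by
  rcases Nat.eq_zero_or_pos n with rfl | hn
  · constructor
    simp only [sigma, Measure.smul_apply]
    have : ((volume : Measure (E 0)).toSphere univ) = 0 := by simp
    rw [this]; simp
  · constructor
    have : Nonempty (Fin n) := ⟨⟨0, hn⟩⟩
    simp only [sigma, Measure.smul_apply, smul_eq_mul]
    rw [ENNReal.inv_mul_cancel]
    · simp
    · rw [Ne, Measure.measure_univ_eq_zero]
      exact Measure.toSphere_ne_zero _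
    · exact measure_ne_top _ _

lemma sigma_univ {n : ℕ} (hn : 0 < n) : (sigma n) univ = 1 := by
  have : Nonempty (Fin n) := ⟨⟨0, hn⟩⟩
  simp only [sigma, Measure.smul_apply, smul_eq_mul]
  rw [ENNReal.inv_mul_cancel]
  · rw [Ne, Measure.measure_univ_eq_zero]
    exact Measure.toSphere_ne_zero _
  · exact measure_ne_top _ _

lemma integrable_of_continuous {n : ℕ} {f : sphere (0 : E n) 1 → ℝ} (hf : Continuous f) :
    Integrable f (sigma n) :=
  hf.integrable_of_hasCompactSupport (HasCompactSupport.of_compactSpace f)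

lemma integral_sq_eq {n : ℕ} (i j : Fin n) :
    ∫ x, ((x : E n) i) ^ 2 ∂(sigma n) = ∫ x, ((x : E n) j) ^ 2 ∂(sigma n) := by
  set U : E n ≃ₗᵢ[ℝ] E n := LinearIsometryEquiv.piLpCongrLeft 2 ℝ ℝ (Equiv.swap i j) with hU
  have h := sigma_map U
  conv_lhs => rw [← h]
  rw [integral_map (continuous_sphMap U).measurable.aemeasurable]
  · refine integral_congr_ae (Filter.Eventually.of_forall fun x => ?_)
    have : (U (x : E n)) i = (x : E n) j := by
      simp [hU, LinearIsometryEquiv.piLpCongrLeft_apply, Equiv.piCongrLeft']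
    show ((U (x : E n)) i) ^ 2 = _
    rw [this]
  · apply Continuous.aestronglyMeasurable
    fun_prop

lemma integral_sq {n : ℕ} (hn : 0 < n) (i : Fin n) :
    ∫ x, ((x : E n) i) ^ 2 ∂(sigma n) = 1 / n := by
  have h1 : ∑ j : Fin n, ∫ x, ((x : E n) j) ^ 2 ∂(sigma n) = 1 := by
    rw [← integral_finsetSum]
    · have : ∀ x : sphere (0 : E n) 1, ∑ j : Fin n, ((x : E n) j) ^ 2 = 1 := by
        intro x
        have hx : ‖(x : E n)‖ = 1 := by simp
        have := EuclideanSpace.real_norm_sq_eq (x : E n)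
        rw [← this, hx]; norm_num
      simp only [this]
      rw [integral_const, measureReal_def, sigma_univ hn]
      simp
    · intro j _
      apply integrable_of_continuous
      fun_prop
  have h2 : ∑ j : Fin n, ∫ x, ((x : E n) j) ^ 2 ∂(sigma n)
      = n * ∫ x, ((x : E n) i) ^ 2 ∂(sigma n) := by
    rw [Finset.sum_congr rfl (fun j _ => integral_sq_eq j i)]
    simp
  have hn' : (n : ℝ) ≠ 0 := by positivity
  rw [h2] at h1
  field_simp
  linarith

/-! ### The body -/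

/-- the body: the Euclidean ball cut by the unit ball of the norm `sup_δ |∑ x_s χ_s (δ)|` of the
coordinates in the range of `φ` -/
def body {n N m : ℕ} (φ : Fin N ↪ Fin n) (χ : Fin N → (Fin m → ℤˣ) → ℝ) : Set (E n) :=
  {x | ‖x‖ ≤ 1 ∧ ∀ δ, |∑ s, x (φ s) * χ s δ| ≤ 1}

lemma zero_mem_open {n N m : ℕ} (φ : Fin N ↪ Fin n) (χ : Fin N → (Fin m → ℤˣ) → ℝ) :
    (0 : E n) ∈ interior (body φ χ) := by
  rw [mem_interior]
  refine ⟨{x | ‖x‖ < 1} ∩ ⋂ δ, {x : E n | |∑ s, x (φ s) * χ s δ| < 1}, ?_, ?_, ?_⟩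
  · rintro x ⟨h1, h2⟩
    exact ⟨le_of_lt h1, fun δ => le_of_lt (mem_iInter.1 h2 δ)⟩
  · apply IsOpen.inter
    · exact isOpen_lt continuous_norm continuous_const
    · apply isOpen_iInter_of_finite
      intro δ
      apply isOpen_lt _ continuous_const
      fun_prop
  · constructor
    · simp
    · rw [mem_iInter]
      intro δ
      simp

lemma body_symmConvex {n N m : ℕ} (φ : Fin N ↪ Fin n) (χ : Fin N → (Fin m → ℤˣ) → ℝ) :
    IsSymmConvexBody (body φ χ) where
  compact := by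
    have h1 : body φ χ = closedBall (0 : E n) 1 ∩ ⋂ δ, {x : E n | |∑ s, x (φ s) * χ s δ| ≤ 1} := by
      ext x; simp [body]
    rw [h1]
    apply (isCompact_closedBall _ _).inter_right
    apply isClosed_iInter
    intro δ
    apply isClosed_le _ continuous_const
    fun_prop
  convex := by
    rintro x ⟨hx1, hx2⟩ y ⟨hy1, hy2⟩ a b ha hb hab
    refine ⟨?_, fun δ => ?_⟩
    · calc ‖a • x + b • y‖ ≤ ‖a • x‖ + ‖b • y‖ := norm_add_le _ _
        _ = a * ‖x‖ + b * ‖y‖ := by rw [norm_smul, norm_smul, Real.norm_of_nonneg ha,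
            Real.norm_of_nonneg hb]
        _ ≤ a * 1 + b * 1 := by gcongr
        _ = 1 := by linarith
    · have h1 : ∑ s, (a • x + b • y) (φ s) * χ s δ =
          a * ∑ s, x (φ s) * χ s δ + b * ∑ s, y (φ s) * χ s δ := by
        rw [Finset.mul_sum, Finset.mul_sum, ← Finset.sum_add_distrib]
        refine Finset.sum_congr rfl fun s _ => ?_
        have : (a • x + b • y) (φ s) = a * x (φ s) + b * y (φ s) := by simp
        rw [this]; ring
      rw [h1]
      calc |a * ∑ s, x (φ s) * χ s δ + b * ∑ s, y (φ s) * χ s δ|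
          ≤ |a * ∑ s, x (φ s) * χ s δ| + |b * ∑ s, y (φ s) * χ s δ| := abs_add_le _ _
        _ = a * |∑ s, x (φ s) * χ s δ| + b * |∑ s, y (φ s) * χ s δ| := by
            rw [abs_mul, abs_mul, abs_of_nonneg ha, abs_of_nonneg hb]
        _ ≤ a * 1 + b * 1 := add_le_add (mul_le_mul_of_nonneg_left (hx2 δ) ha)
            (mul_le_mul_of_nonneg_left (hy2 δ) hb)
        _ = 1 := by linarith
  interior_nonempty := ⟨0, zero_mem_open φ χ⟩
  symm := by
    ext x
    simp only [body, Set.mem_neg, Set.mem_ofPred_eq, norm_neg]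
    have : ∀ δ, ∑ s, (-x) (φ s) * χ s δ = -∑ s, x (φ s) * χ s δ := by
      intro δ
      rw [← Finset.sum_neg_distrib]
      refine Finset.sum_congr rfl fun s _ => ?_
      simp
    simp only [this, abs_neg]

lemma gauge_body_le {n N m : ℕ} (φ : Fin N ↪ Fin n) (χ : Fin N → (Fin m → ℤˣ) → ℝ)
    (hχ : ∀ s δ, |χ s δ| = 1) (x : E n) (hx : ‖x‖ = 1) :
    gauge (body φ χ) x ≤ 1 + ∑ s, |x (φ s)| := by
  set t := ∑ s, |x (φ s)| with ht
  have ht0 : 0 ≤ t := Finset.sum_nonneg fun _ _ => abs_nonneg _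
  apply gauge_le_of_mem (by linarith)
  rw [mem_smul_set_iff_inv_smul_mem₀ (by linarith)]
  have hpos : (0 : ℝ) < 1 + t := by linarith
  refine ⟨?_, fun δ => ?_⟩
  · rw [norm_smul, hx, norm_inv, Real.norm_of_nonneg hpos.le, mul_one]
    exact inv_le_one_of_one_le₀ (by linarith)
  · have h1 : ∑ s, ((1 + t)⁻¹ • x) (φ s) * χ s δ = (1 + t)⁻¹ * ∑ s, x (φ s) * χ s δ := by
      rw [Finset.mul_sum]
      refine Finset.sum_congr rfl fun s _ => ?_
      simp [mul_assoc]
    rw [h1, abs_mul, abs_of_pos (inv_pos.2 hpos), inv_mul_le_iff₀ hpos]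
    calc |∑ s, x (φ s) * χ s δ| ≤ ∑ s, |x (φ s) * χ s δ| := Finset.abs_sum_le_sum_abs _ _
      _ = t := by
          rw [ht]
          refine Finset.sum_congr rfl fun s _ => ?_
          rw [abs_mul, hχ, mul_one]
      _ ≤ (1 + t) * 1 := by linarith

lemma le_gauge_body {n N m : ℕ} (φ : Fin N ↪ Fin n) (χ : Fin N → (Fin m → ℤˣ) → ℝ) (x : E n)
    (δ : Fin m → ℤˣ) : |∑ s, x (φ s) * χ s δ| ≤ gauge (body φ χ) x := by
  have habs : Absorbent ℝ (body φ χ) := absorbent_nhds_zero
    (mem_interior_iff_mem_nhds.1 (zero_mem_open φ χ))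
  apply le_csInf habs.gauge_set_nonempty
  rintro r ⟨hr, hxr⟩
  rw [mem_smul_set_iff_inv_smul_mem₀ (ne_of_gt hr)] at hxr
  have h2 := hxr.2 δ
  have h1 : ∑ s, (r⁻¹ • x) (φ s) * χ s δ = r⁻¹ * ∑ s, x (φ s) * χ s δ := by
    rw [Finset.mul_sum]
    refine Finset.sum_congr rfl fun s _ => ?_
    simp [mul_assoc]
  rw [h1, abs_mul, abs_of_pos (inv_pos.2 hr), inv_mul_le_iff₀ hr] at h2
  linarith

lemma M_body_le {n N m : ℕ} (hn : 0 < n) (φ : Fin N ↪ Fin n) (χ : Fin N → (Fin m → ℤˣ) → ℝ)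
    (hχ : ∀ s δ, |χ s δ| = 1) : M (body φ χ) ≤ 1 + N / √n := by
  have hn' : (0 : ℝ) < n := by exact_mod_cast hn
  set a : ℝ := √n with ha
  have ha0 : 0 < a := Real.sqrt_pos.2 hn'
  have ha2 : a ^ 2 = n := Real.sq_sqrt hn'.le
  have hint : ∀ s : Fin N, Integrable
      (fun x : sphere (0 : E n) 1 => (a * ((x : E n) (φ s)) ^ 2 + a⁻¹) / 2) (sigma n) := by
    intro e
    apply integrable_of_continuous
    fun_prop
  have h1 : M (body φ χ) ≤ ∫ x : sphere (0 : E n) 1,
      (1 + ∑ s, (a * ((x : E n) (φ s)) ^ 2 + a⁻¹) / 2) ∂(sigma n) := by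
    apply integral_mono_of_nonneg
    · exact Filter.Eventually.of_forall fun x => gauge_nonneg _
    · apply integrable_of_continuous
      fun_prop
    · refine Filter.Eventually.of_forall fun x => ?_
      refine (gauge_body_le φ χ hχ x (by simp)).trans ?_
      refine add_le_add le_rfl (Finset.sum_le_sum fun s _ => ?_)
      set t := |(x : E n) (φ s)| with ht
      have ht2 : ((x : E n) (φ s)) ^ 2 = t ^ 2 := by rw [ht, sq_abs]
      rw [ht2, le_div_iff₀ (by norm_num : (0 : ℝ) < 2)]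
      have : 0 ≤ (a * t - 1) ^ 2 / a := by positivity
      have h3 : (a * t - 1) ^ 2 / a = a * t ^ 2 + a⁻¹ - t * 2 := by
        field_simp; ring
      linarith
  refine h1.trans ?_
  rw [integral_add (integrable_const _) (integrable_finsetSum _ fun e _ => hint e),
    integral_finsetSum _ fun e _ => hint e]
  have h2 : ∀ s : Fin N, ∫ x : sphere (0 : E n) 1,
      (a * ((x : E n) (φ s)) ^ 2 + a⁻¹) / 2 ∂(sigma n) = a⁻¹ := by
    intro e
    rw [integral_div, integral_add, integral_const_mul, integral_sq hn, integral_const,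
      measureReal_def, sigma_univ hn]
    · rw [← ha2]
      simp
      field_simp
      norm_num
    · apply integrable_of_continuous
      fun_prop
    · exact integrable_const _
  simp only [h2]
  rw [integral_const, measureReal_def, sigma_univ hn]
  rw [Finset.sum_const, Finset.card_univ, Fintype.card_fin]
  simp
  rw [div_eq_mul_inv]

lemma Mstar_body_le {n N m : ℕ} (hn : 0 < n) (φ : Fin N ↪ Fin n)
    (χ : Fin N → (Fin m → ℤˣ) → ℝ) : Mstar (body φ χ) ≤ 1 := by
  have h1 : Mstar (body φ χ) ≤ ∫ _x : sphere (0 : E n) 1, (1 : ℝ) ∂(sigma n) := by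
    have hb : ∀ x : sphere (0 : E n) 1, ∀ z ∈ (fun y : E n => ⟪(x : E n), y⟫) '' (body φ χ),
        z ≤ 1 := by
      rintro x z ⟨y, hy, rfl⟩
      have := real_inner_le_norm (x : E n) y
      have hx : ‖(x : E n)‖ = 1 := by simp
      rw [hx, one_mul] at this
      exact this.trans hy.1
    have h0 : (0 : E n) ∈ body φ χ := by simp [body]
    apply integral_mono_of_nonneg
    · refine Filter.Eventually.of_forall fun x => ?_
      apply le_csSup ⟨1, hb x⟩
      exact ⟨0, h0, by simp⟩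
    · exact integrable_const _
    · refine Filter.Eventually.of_forall fun x => ?_
      exact csSup_le ⟨_, ⟨0, h0, rfl⟩⟩ (hb x)
  refine h1.trans ?_
  rw [integral_const, measureReal_def, sigma_univ hn]
  simp

lemma Mstar_nonneg {n : ℕ} (K : Set (E n)) (hK : -K = K) : 0 ≤ Mstar K := by
  apply integral_nonneg
  intro x
  show 0 ≤ sSup ((fun y : E n => ⟪(x : E n), y⟫) '' K)
  rcases K.eq_empty_or_nonempty with rfl | ⟨y, hy⟩
  · simp
  by_cases hb : BddAbove ((fun y : E n => ⟪(x : E n), y⟫) '' K)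
  · have h1 : ⟪(x : E n), y⟫ ≤ sSup ((fun y : E n => ⟪(x : E n), y⟫) '' K) :=
      le_csSup hb ⟨y, hy, rfl⟩
    have hy' : -y ∈ K := by
      rw [← hK]; simpa using hy
    have h2 : ⟪(x : E n), -y⟫ ≤ sSup ((fun y : E n => ⟪(x : E n), y⟫) '' K) :=
      le_csSup hb ⟨-y, hy', rfl⟩
    rw [inner_neg_right] at h2
    linarith
  · rw [Real.sSup_of_not_bddAbove hb]

lemma image_symmConvex {n : ℕ} {K : Set (E n)} (hK : IsSymmConvexBody K)
    (T : E n ≃ₗ[ℝ] E n) : IsSymmConvexBody (T '' K) where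
  compact := hK.compact.image (LinearMap.continuous_of_finiteDimensional (T : E n →ₗ[ℝ] E n))
  convex := hK.convex.linear_image (T : E n →ₗ[ℝ] E n)
  interior_nonempty := by
    have h := T.toContinuousLinearEquiv.toHomeomorph.image_interior K
    have h1 : (T '' K) = T.toContinuousLinearEquiv.toHomeomorph '' K := rfl
    rw [h1, ← h]
    exact hK.interior_nonempty.image _
  symm := by
    ext x
    constructor
    · rintro ⟨y, hy, hyx⟩
      refine ⟨-y, ?_, ?_⟩
      · rw [← hK.symm]; simpa using hy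
      · have hyx' : T y = -x := hyx
        show T (-y) = x
        rw [map_neg, hyx', neg_neg]
    · rintro ⟨y, hy, rfl⟩
      refine ⟨-y, ?_, ?_⟩
      · rw [← hK.symm]; simpa using hy
      · show T (-y) = -(T y)
        rw [map_neg]

lemma zero_mem_interior {n : ℕ} {K : Set (E n)} (hK : IsSymmConvexBody K) :
    (0 : E n) ∈ interior K := by
  obtain ⟨x, hx⟩ := hK.interior_nonempty
  have hx' : -x ∈ interior K := by
    have h := (Homeomorph.neg (E n)).image_interior K
    have h1 : (Homeomorph.neg (E n)) '' K = K := by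
      have : (Homeomorph.neg (E n)) '' K = -K := by
        ext y
        simp
      rw [this, hK.symm]
    rw [h1] at h
    rw [← h]
    exact ⟨x, hx, rfl⟩
  have h2 := hK.convex.interior hx hx' (by norm_num : (0 : ℝ) ≤ 1 / 2)
    (by norm_num : (0 : ℝ) ≤ 1 / 2) (by norm_num)
  simpa using h2

/-- `‖x‖_K h_K(x) ≥ 1` on the unit sphere. -/
lemma gauge_mul_support {n : ℕ} {K : Set (E n)} (hK : IsSymmConvexBody K) (x : E n)
    (hx : ‖x‖ = 1) : 1 ≤ gauge K x * sSup ((fun y : E n => ⟪x, y⟫) '' K) := by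
  have h0 := zero_mem_interior hK
  have hnhds : K ∈ nhds (0 : E n) := mem_interior_iff_mem_nhds.1 h0
  have habs : Absorbent ℝ K := absorbent_nhds_zero hnhds
  have hb : Bornology.IsVonNBounded ℝ K :=
    (NormedSpace.isVonNBounded_iff ℝ).2 hK.compact.isBounded
  have hx0 : x ≠ 0 := by
    rintro rfl
    simp at hx
  have hg : 0 < gauge K x := (gauge_pos habs hb).2 hx0
  have hmem : (gauge K x)⁻¹ • x ∈ K := by
    have h1 : gauge K ((gauge K x)⁻¹ • x) ≤ 1 := by
      rw [gauge_smul_of_nonneg (inv_nonneg.2 hg.le), smul_eq_mul, inv_mul_cancel₀ hg.ne']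
    have h2 := (gauge_le_one_iff_mem_closure hK.convex hnhds).1 h1
    rwa [hK.compact.isClosed.closure_eq] at h2
  have hbd : BddAbove ((fun y : E n => ⟪x, y⟫) '' K) :=
    (hK.compact.image (by fun_prop)).bddAbove
  have h3 : ⟪x, (gauge K x)⁻¹ • x⟫ ≤ sSup ((fun y : E n => ⟪x, y⟫) '' K) :=
    le_csSup hbd ⟨_, hmem, rfl⟩
  rw [inner_smul_right, real_inner_self_eq_norm_sq, hx] at h3
  calc (1 : ℝ) = gauge K x * ((gauge K x)⁻¹ * 1 ^ 2) := by field_simp
    _ ≤ _ := by gcongr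

/-- `M(K) M*(K) ≥ 1` for every symmetric convex body. -/
lemma one_le_M_mul_Mstar {n : ℕ} (hn : 0 < n) {K : Set (E n)} (hK : IsSymmConvexBody K) :
    1 ≤ M K * Mstar K := by
  have hnhds : K ∈ nhds (0 : E n) := mem_interior_iff_mem_nhds.1 (zero_mem_interior hK)
  have hgc : Continuous fun x : sphere (0 : E n) 1 => gauge K (x : E n) :=
    (continuous_gauge hK.convex hnhds).comp continuous_subtype_val
  have hsc : Continuous fun x : sphere (0 : E n) 1 => sSup ((fun y : E n => ⟪(x : E n), y⟫) '' K) := by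
    apply IsCompact.continuous_sSup hK.compact
    fun_prop
  have hM0 : 0 ≤ M K := integral_nonneg fun x => gauge_nonneg _
  have hS0 : 0 ≤ Mstar K := Mstar_nonneg K hK.symm
  have key : ∀ t : ℝ, 0 < t → 2 ≤ t * M K + t⁻¹ * Mstar K := by
    intro t ht
    have h1 : ∫ _x : sphere (0 : E n) 1, (2 : ℝ) ∂(sigma n) ≤
        ∫ x : sphere (0 : E n) 1, (t * gauge K (x : E n) +
          t⁻¹ * sSup ((fun y : E n => ⟪(x : E n), y⟫) '' K)) ∂(sigma n) := by
      apply integral_mono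
      · exact integrable_const _
      · exact ((integrable_of_continuous hgc).const_mul _).add
          ((integrable_of_continuous hsc).const_mul _)
      · intro x
        have h2 := gauge_mul_support hK (x : E n) (by simp)
        have h3 : 0 ≤ gauge K (x : E n) := gauge_nonneg _
        set g := gauge K (x : E n)
        set s := sSup ((fun y : E n => ⟪(x : E n), y⟫) '' K)
        show (2 : ℝ) ≤ t * g + t⁻¹ * s
        have hs : 0 < s := by
          by_contra hc
          push Not at hc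
          nlinarith
        have h4 : t * g + t⁻¹ * s = ((t * g - 1) ^ 2 + (g * s - 1) + 1 - 1) / (t * g) + 2 := by
          have hg : g ≠ 0 := by
            rintro h
            rw [h, zero_mul] at h2
            linarith
          field_simp
          ring
        have hg : 0 < g := by
          rcases h3.lt_or_eq with h | h
          · exact h
          · rw [← h, zero_mul] at h2
            linarith
        rw [h4]
        have : 0 ≤ ((t * g - 1) ^ 2 + (g * s - 1) + 1 - 1) / (t * g) := by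
          apply div_nonneg
          · have := sq_nonneg (t * g - 1)
            linarith
          · positivity
        linarith
    rw [integral_add ((integrable_of_continuous hgc).const_mul _)
      ((integrable_of_continuous hsc).const_mul _), integral_const_mul, integral_const_mul,
      integral_const, measureReal_def, sigma_univ hn] at h1
    simpa [M, Mstar] using h1
  rcases hM0.lt_or_eq with h | h
  · have h1 := key (M K)⁻¹ (by positivity)
    rw [inv_mul_cancel₀ h.ne', inv_inv] at h1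
    linarith
  · exfalso
    have h1 := key (Mstar K + 1) (by positivity)
    rw [← h, mul_zero, zero_add, inv_mul_eq_div, le_div_iff₀ (by positivity)] at h1
    linarith

lemma MMstar_bddBelow {n : ℕ} {K : Set (E n)} (hK : IsSymmConvexBody K) :
    BddBelow (range fun T : E n ≃ₗ[ℝ] E n => M (T '' K) * Mstar (T '' K)) := by
  refine ⟨0, ?_⟩
  rintro _ ⟨T, rfl⟩
  exact mul_nonneg (integral_nonneg fun x => gauge_nonneg _)
    (Mstar_nonneg _ (image_symmConvex hK T).symm)

/-- The `MM*` product is at least `1`. -/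
lemma one_le_MMstar {n : ℕ} (hn : 0 < n) {K : Set (E n)} (hK : IsSymmConvexBody K) :
    1 ≤ MMstar K :=
  le_ciInf fun T => one_le_M_mul_Mstar hn (image_symmConvex hK T)

lemma MMstar_body_le {n N m : ℕ} (hn : 0 < n) (φ : Fin N ↪ Fin n)
    (χ : Fin N → (Fin m → ℤˣ) → ℝ) (hχ : ∀ s δ, |χ s δ| = 1) :
    MMstar (body φ χ) ≤ 1 + N / √n := by
  refine (ciInf_le (MMstar_bddBelow (body_symmConvex φ χ)) (LinearEquiv.refl ℝ _)).trans ?_
  have himg : (LinearEquiv.refl ℝ (E n)) '' body φ χ = body φ χ := by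
    ext x; simp
  rw [himg]
  have h1 := M_body_le hn φ χ hχ
  have h2 := Mstar_body_le hn φ χ
  have h3 : 0 ≤ M (body φ χ) := integral_nonneg fun x => gauge_nonneg _
  calc M (body φ χ) * Mstar (body φ χ) ≤ M (body φ χ) * 1 := by gcongr
    _ ≤ _ := by linarith

/-! ### Moments of sums of signs -/

lemma sum_signs_succ {k : ℕ} (g : ℝ → ℝ) (e : Fin (k + 1) → ℤˣ) :
    ∑ d : Fin (k + 1) → ℤˣ, g (∑ i, ((e i : ℤ) : ℝ) * ((d i : ℤ) : ℝ)) =
      ∑ d : Fin k → ℤˣ, (g (∑ i, (((Fin.tail e) i : ℤ) : ℝ) * ((d i : ℤ) : ℝ) + 1) +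
        g (∑ i, (((Fin.tail e) i : ℤ) : ℝ) * ((d i : ℤ) : ℝ) - 1)) := by
  rw [← (Fin.consEquiv (fun _ => ℤˣ)).sum_comp, Fintype.sum_prod_type, Finset.sum_comm]
  apply Finset.sum_congr rfl
  intro d _
  have huniv : (Finset.univ : Finset ℤˣ) = {1, -1} := by decide
  rw [huniv, Finset.sum_pair (by decide)]
  simp only [Fin.consEquiv_apply, Fin.sum_univ_succ, Fin.cons_zero, Fin.cons_succ, Fin.tail]
  rcases Int.units_eq_one_or (e 0) with h | h <;> rw [h] <;> simp <;> ring_nf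

lemma sum_sq {k : ℕ} (e : Fin k → ℤˣ) :
    ∑ d : Fin k → ℤˣ, (∑ i, ((e i : ℤ) : ℝ) * ((d i : ℤ) : ℝ)) ^ 2 = 2 ^ k * k := by
  induction k with
  | zero => simp
  | succ k ih =>
    rw [sum_signs_succ (fun t => t ^ 2) e]
    have h : ∀ t : ℝ, (t + 1) ^ 2 + (t - 1) ^ 2 = 2 * t ^ 2 + 2 := by intro t; ring
    simp only [h]
    rw [Finset.sum_add_distrib, ← Finset.mul_sum, ih]
    simp
    ring

/-! ### The K-convexity constant -/

lemma expect_le {m : ℕ} (f : (Fin m → ℤˣ) → ℝ) (c : ℝ) (h : ∀ e, f e ≤ c) : expect f ≤ c := by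
  unfold expect
  have hcard : Fintype.card (Fin m → ℤˣ) = 2 ^ m := by simp
  have h2k : (0 : ℝ) < 2 ^ m := by positivity
  have : ∑ e, f e ≤ 2 ^ m * c := by
    calc ∑ e, f e ≤ ∑ _e : Fin m → ℤˣ, c := Finset.sum_le_sum fun e _ => h e
      _ = 2 ^ m * c := by rw [Finset.sum_const, Finset.card_univ, hcard]; simp
  rw [smul_eq_mul, inv_mul_le_iff₀ h2k]
  exact this

lemma le_expect {m : ℕ} (f : (Fin m → ℤˣ) → ℝ) (c : ℝ) (h : ∀ e, c ≤ f e) : c ≤ expect f := by
  unfold expect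
  have hcard : Fintype.card (Fin m → ℤˣ) = 2 ^ m := by simp
  have h2k : (0 : ℝ) < 2 ^ m := by positivity
  have : 2 ^ m * c ≤ ∑ e, f e := by
    calc 2 ^ m * c = ∑ _e : Fin m → ℤˣ, c := by
          rw [Finset.sum_const, Finset.card_univ, hcard]; simp
      _ ≤ ∑ e, f e := Finset.sum_le_sum fun e _ => h e
  rw [smul_eq_mul, le_inv_mul_iff₀ h2k]
  exact this

/-- The lower bound for the K-convexity constant given by a function with few characters. -/
lemma Kconv_body_ge {n N m : ℕ} (φ : Fin N ↪ Fin n) (χ : Fin N → (Fin m → ℤˣ) → ℝ)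
    (hχ : ∀ s δ, |χ s δ| = 1) (hmul : ∀ s ε δ, χ s (ε * δ) = χ s ε * χ s δ)
    (a : Fin N → ℝ) (ha : ∑ s, a s ^ 2 ≤ 1) (hF : ∀ δ, |∑ s, a s * χ s δ| ≤ 1) :
    ENNReal.ofReal (expect fun δ : Fin m → ℤˣ =>
      (∑ s, a s * χ s δ) * ∑ i, ((δ i : ℤ) : ℝ)) ≤ Kconv (body φ χ) := by
  set v : ℝ := expect fun δ : Fin m → ℤˣ => (∑ s, a s * χ s δ) * ∑ i, ((δ i : ℤ) : ℝ) with hv
  have hon : Orthonormal ℝ fun s : Fin N => (EuclideanSpace.single (φ s) (1 : ℝ) : E n) :=
    EuclideanSpace.orthonormal_single.comp φ φ.injective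
  set f : (Fin m → ℤˣ) → E n := fun e => ∑ s, (a s * χ s e) •
    (EuclideanSpace.single (φ s) (1 : ℝ) : E n) with hf
  have hcoord : ∀ e t, (f e) (φ t) = a t * χ t e := by
    intro e t
    rw [hf]
    simp only
    rw [WithLp.ofLp_sum, Finset.sum_apply, Finset.sum_eq_single t]
    · simp
    · intro s _ hst
      have : φ t ≠ φ s := fun h => hst (φ.injective h).symm
      simp [this]
    · simp
  have hnorm : ∀ e, ‖f e‖ ≤ 1 := by
    intro e
    have h1 : ‖f e‖ ^ 2 = ∑ s, a s ^ 2 := by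
      rw [← real_inner_self_eq_norm_sq, hf]
      simp only
      rw [hon.inner_sum]
      refine Finset.sum_congr rfl fun s _ => ?_
      have h2 : χ s e * χ s e = 1 := by rw [← abs_mul_abs_self, hχ]; norm_num
      simp only [conj_trivial]
      calc a s * χ s e * (a s * χ s e) = a s ^ 2 * (χ s e * χ s e) := by ring
        _ = a s ^ 2 := by rw [h2, mul_one]
    nlinarith [norm_nonneg (f e)]
  have h1 : L2norm (body φ χ) f ≤ 1 := by
    unfold L2norm
    rw [Real.sqrt_le_one]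
    apply expect_le
    intro e
    have hmem : f e ∈ body φ χ := by
      refine ⟨hnorm e, fun δ => ?_⟩
      have h2 : ∑ s, (f e) (φ s) * χ s δ = ∑ s, a s * χ s (e * δ) := by
        refine Finset.sum_congr rfl fun s _ => ?_
        rw [hcoord, hmul]; ring
      rw [h2]
      exact hF _
    have h0 : 0 ≤ gauge (body φ χ) (f e) := gauge_nonneg _
    have h1 : gauge (body φ χ) (f e) ≤ 1 := gauge_le_one_of_mem hmem
    nlinarith
  have hrad : ∀ e t, (radProj f e) (φ t) = ∑ i, ((e i : ℤ) : ℝ) *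
      (((2 : ℝ) ^ m)⁻¹ * ∑ δ : Fin m → ℤˣ, ((δ i : ℤ) : ℝ) * (a t * χ t δ)) := by
    intro e t
    unfold radProj
    rw [WithLp.ofLp_sum, Finset.sum_apply]
    refine Finset.sum_congr rfl fun i _ => ?_
    rw [PiLp.smul_apply, smul_eq_mul]
    congr 1
    unfold expect
    rw [PiLp.smul_apply, smul_eq_mul, WithLp.ofLp_sum, Finset.sum_apply]
    congr 1
    refine Finset.sum_congr rfl fun δ _ => ?_
    rw [PiLp.smul_apply, hcoord, smul_eq_mul]
  have hval : ∀ e : Fin m → ℤˣ, ∑ t, (radProj f e) (φ t) * χ t e = v := by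
    intro e
    have h2 : v = ((2 : ℝ) ^ m)⁻¹ * ∑ δ : Fin m → ℤˣ,
        (∑ s, a s * χ s (e * δ)) * ∑ i, (((e * δ) i : ℤ) : ℝ) := by
      rw [hv]
      unfold expect
      rw [smul_eq_mul]
      congr 1
      exact (Fintype.sum_equiv (Equiv.mulLeft e) _ _ fun δ => rfl).symm
    rw [h2]
    simp only [hrad]
    have h3 : ∀ t, (∑ i, ((e i : ℤ) : ℝ) *
        (((2 : ℝ) ^ m)⁻¹ * ∑ δ : Fin m → ℤˣ, ((δ i : ℤ) : ℝ) * (a t * χ t δ))) * χ t e =
        ((2 : ℝ) ^ m)⁻¹ * ∑ δ : Fin m → ℤˣ, ∑ i, ((e i : ℤ) : ℝ) * ((δ i : ℤ) : ℝ) *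
          (a t * (χ t e * χ t δ)) := by
      intro t
      rw [Finset.sum_comm, Finset.mul_sum, Finset.sum_mul]
      refine Finset.sum_congr rfl fun i _ => ?_
      rw [Finset.mul_sum, Finset.mul_sum, Finset.mul_sum, Finset.sum_mul]
      refine Finset.sum_congr rfl fun δ _ => ?_
      ring
    simp only [h3]
    rw [← Finset.mul_sum, Finset.sum_comm]
    congr 1
    refine Finset.sum_congr rfl fun δ _ => ?_
    rw [Finset.sum_mul]
    refine Finset.sum_congr rfl fun t _ => ?_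
    rw [Finset.mul_sum]
    refine Finset.sum_congr rfl fun i _ => ?_
    rw [hmul]
    simp only [Pi.mul_apply, Units.val_mul, Int.cast_mul]
    ring
  rcases le_or_gt v 0 with hv0 | hv0
  · rw [ENNReal.ofReal_of_nonpos hv0]
    exact bot_le
  have h2 : v ≤ L2norm (body φ χ) (radProj f) := by
    unfold L2norm
    apply Real.le_sqrt_of_sq_le
    apply le_expect
    intro e
    have h3 := le_gauge_body φ χ (radProj f e) e
    rw [hval, abs_of_pos hv0] at h3
    gcongr
  calc ENNReal.ofReal v ≤ ENNReal.ofReal (L2norm (body φ χ) (radProj f)) :=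
        ENNReal.ofReal_le_ofReal h2
    _ ≤ Kconv (body φ χ) := by
        unfold Kconv
        exact le_iSup_of_le m (le_iSup_of_le f (le_iSup_of_le h1 le_rfl))

/-- The K-convexity constant is at least `1`. -/
lemma one_le_Kconv {n : ℕ} (hn : 0 < n) {K : Set (E n)} (hK : IsSymmConvexBody K) :
    1 ≤ Kconv K := by
  have hnhds : K ∈ nhds (0 : E n) := mem_interior_iff_mem_nhds.1 (zero_mem_interior hK)
  have habs : Absorbent ℝ K := absorbent_nhds_zero hnhds
  have hb : Bornology.IsVonNBounded ℝ K :=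
    (NormedSpace.isVonNBounded_iff ℝ).2 hK.compact.isBounded
  obtain ⟨x, hx⟩ : ∃ x : E n, gauge K x = 1 := by
    have : Nontrivial (E n) := by
      have : Nonempty (Fin n) := ⟨⟨0, hn⟩⟩
      infer_instance
    obtain ⟨y, hy⟩ := exists_ne (0 : E n)
    have hg : 0 < gauge K y := (gauge_pos habs hb).2 hy
    refine ⟨(gauge K y)⁻¹ • y, ?_⟩
    rw [gauge_smul_of_nonneg (inv_nonneg.2 hg.le), smul_eq_mul, inv_mul_cancel₀ hg.ne']
  have hsym : ∀ y : E n, gauge K (-y) = gauge K y := by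
    intro y
    apply gauge_neg
    intro z hz
    rw [← hK.symm]
    simpa using hz
  have hgu : ∀ u : ℤˣ, gauge K (((u : ℤ) : ℝ) • x) = 1 := by
    intro u
    rcases Int.units_eq_one_or u with h | h <;> rw [h]
    · simpa using hx
    · simp only [Units.val_neg, Units.val_one, Int.cast_neg, Int.cast_one, neg_smul, one_smul]
      rw [hsym, hx]
  set f : (Fin 1 → ℤˣ) → E n := fun e => ((e 0 : ℤ) : ℝ) • x with hf
  have hR : radProj f = f := by
    funext e
    unfold radProj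
    rw [Fin.sum_univ_one]
    have h1 : (expect fun δ : Fin 1 → ℤˣ => ((δ 0 : ℤ) : ℝ) • f δ) = x := by
      unfold expect
      have h2 : ∀ δ : Fin 1 → ℤˣ, ((δ 0 : ℤ) : ℝ) • f δ = x := by
        intro δ
        rw [hf]
        simp only
        rw [smul_smul]
        rcases Int.units_eq_one_or (δ 0) with h | h <;> rw [h] <;> simp
      simp only [h2]
      rw [Finset.sum_const, Finset.card_univ]
      have hcard : Fintype.card (Fin 1 → ℤˣ) = 2 := by simp
      rw [hcard, ← Nat.cast_smul_eq_nsmul ℝ, smul_smul]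
      norm_num
    rw [h1]
  have hL : L2norm K f = 1 := by
    unfold L2norm
    have h1 : ∀ e : Fin 1 → ℤˣ, gauge K (f e) ^ 2 = 1 := by
      intro e
      rw [hf]
      simp only
      rw [hgu, one_pow]
    simp only [h1]
    have h2 : (expect fun _ : Fin 1 → ℤˣ => (1 : ℝ)) = 1 :=
      le_antisymm (expect_le _ _ fun _ => le_rfl) (le_expect _ _ fun _ => le_rfl)
    rw [h2, Real.sqrt_one]
  calc (1 : ℝ≥0∞) = ENNReal.ofReal (L2norm K (radProj f)) := by rw [hR, hL, ENNReal.ofReal_one]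
    _ ≤ Kconv K := by
        unfold Kconv
        exact le_iSup_of_le 1 (le_iSup_of_le f (le_iSup_of_le hL.le le_rfl))

/-! ### Sampling -/

lemma sampling {W Δ : Type} [Fintype W] [Nonempty W] [Fintype Δ] (X : W → Δ → ℝ)
    (hX : ∀ w δ, |X w δ| ≤ 1) (μ : Δ → ℝ) (hμ : ∀ δ, ∑ w, X w δ = Fintype.card W * μ δ)
    (M : ℕ) (τ : ℝ) (hτ : 0 < τ) (hτ1 : τ ≤ 1)
    (hM : 2 * (Fintype.card Δ : ℝ) < Real.exp (M * τ ^ 2 / 16)) :
    ∃ w : Fin M → W, ∀ δ, |∑ s, X (w s) δ - M * μ δ| ≤ M * τ := by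
  classical
  by_contra hcon
  push Not at hcon
  set c : ℝ := (Fintype.card W : ℝ) with hc
  have hc0 : 0 < c := by
    rw [hc]
    exact_mod_cast Fintype.card_pos
  have hμ1 : ∀ δ, |μ δ| ≤ 1 := by
    intro δ
    have h1 : |c * μ δ| ≤ c := by
      rw [← hμ δ]
      refine (Finset.abs_sum_le_sum_abs _ _).trans ?_
      calc ∑ w, |X w δ| ≤ ∑ _w : W, (1 : ℝ) := Finset.sum_le_sum fun w _ => hX w δ
        _ = c := by simp [hc]
    rw [abs_mul, abs_of_pos hc0] at h1
    nlinarith [abs_nonneg (μ δ)]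
  set t : ℝ := τ / 8 with ht
  have key : ∀ (σ : ℝ) (_ : |σ| = 1) (δ : Δ),
      ∑ w, Real.exp (σ * t * (X w δ - μ δ)) ≤ c * Real.exp (4 * t ^ 2) := by
    intro σ hσ δ
    have h1 : ∀ w, Real.exp (σ * t * (X w δ - μ δ)) ≤ 1 + σ * t * (X w δ - μ δ) + 4 * t ^ 2 := by
      intro w
      have h2 : |X w δ - μ δ| ≤ 2 := by
        have := abs_sub (X w δ) (μ δ)
        linarith [hX w δ, hμ1 δ]
      have h3 : |σ * t * (X w δ - μ δ)| = t * |X w δ - μ δ| := by
        rw [abs_mul, abs_mul, hσ, one_mul, abs_of_pos (by positivity : 0 < t)]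
      have h4 : |σ * t * (X w δ - μ δ)| ≤ 1 := by
        rw [h3]
        nlinarith [abs_nonneg (X w δ - μ δ)]
      have h5 := (abs_le.1 (Real.abs_exp_sub_one_sub_id_le h4)).2
      have h6 : (σ * t * (X w δ - μ δ)) ^ 2 ≤ 4 * t ^ 2 := by
        rw [← sq_abs, h3, mul_pow]
        have : |X w δ - μ δ| ^ 2 ≤ 2 ^ 2 := pow_le_pow_left₀ (abs_nonneg _) h2 2
        nlinarith [sq_nonneg t]
      linarith
    calc ∑ w, Real.exp (σ * t * (X w δ - μ δ)) ≤ ∑ w, (1 + σ * t * (X w δ - μ δ) + 4 * t ^ 2) :=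
          Finset.sum_le_sum fun w _ => h1 w
      _ = c * (1 + 4 * t ^ 2) := by
          have h7 : ∑ w, (X w δ - μ δ) = 0 := by
            rw [Finset.sum_sub_distrib, hμ δ]
            simp [hc]
          rw [Finset.sum_add_distrib, Finset.sum_add_distrib, ← Finset.mul_sum, h7]
          simp [← hc]
          ring
      _ ≤ c * Real.exp (4 * t ^ 2) := by
          have := Real.add_one_le_exp (4 * t ^ 2)
          nlinarith
  have key2 : ∀ (σ : ℝ) (_ : |σ| = 1) (δ : Δ),
      ∑ w : Fin M → W, Real.exp (σ * t * (∑ s, X (w s) δ - M * μ δ)) ≤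
        c ^ M * Real.exp (4 * t ^ 2 * M) := by
    intro σ hσ δ
    have h1 : ∀ w : Fin M → W, Real.exp (σ * t * (∑ s, X (w s) δ - M * μ δ)) =
        ∏ s, Real.exp (σ * t * (X (w s) δ - μ δ)) := by
      intro w
      rw [← Real.exp_sum]
      congr 1
      rw [← Finset.mul_sum, Finset.sum_sub_distrib]
      simp
    simp only [h1]
    rw [← Fintype.sum_pow (fun w => Real.exp (σ * t * (X w δ - μ δ))) M]
    calc (∑ w, Real.exp (σ * t * (X w δ - μ δ))) ^ M ≤ (c * Real.exp (4 * t ^ 2)) ^ M :=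
          pow_le_pow_left₀ (Finset.sum_nonneg fun _ _ => (Real.exp_pos _).le) (key σ hσ δ) M
      _ = _ := by rw [mul_pow, ← Real.exp_nat_mul, mul_comm (M : ℝ)]
  have htot : ∑ w : Fin M → W, ∑ δ : Δ, (Real.exp (1 * t * (∑ s, X (w s) δ - M * μ δ)) +
      Real.exp (-1 * t * (∑ s, X (w s) δ - M * μ δ))) ≤
      2 * Fintype.card Δ * (c ^ M * Real.exp (4 * t ^ 2 * M)) := by
    rw [Finset.sum_comm]
    calc _ ≤ ∑ _δ : Δ, (c ^ M * Real.exp (4 * t ^ 2 * M) + c ^ M * Real.exp (4 * t ^ 2 * M)) := by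
          refine Finset.sum_le_sum fun δ _ => ?_
          rw [Finset.sum_add_distrib]
          exact add_le_add (key2 1 (by simp) δ) (key2 (-1) (by simp) δ)
      _ = _ := by
          rw [Finset.sum_const, Finset.card_univ, nsmul_eq_mul]
          ring
  have hlow : ∀ w : Fin M → W, Real.exp (t * (M * τ)) ≤
      ∑ δ : Δ, (Real.exp (1 * t * (∑ s, X (w s) δ - M * μ δ)) +
      Real.exp (-1 * t * (∑ s, X (w s) δ - M * μ δ))) := by
    intro w
    obtain ⟨δ, hδ⟩ := hcon w
    refine le_trans ?_ (Finset.single_le_sum (f := fun δ : Δ =>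
      (Real.exp (1 * t * (∑ s, X (w s) δ - M * μ δ)) +
      Real.exp (-1 * t * (∑ s, X (w s) δ - M * μ δ)))) (fun δ _ => by positivity)
      (Finset.mem_univ δ))
    have ht0 : 0 < t := by positivity
    rcases le_or_gt 0 (∑ s, X (w s) δ - M * μ δ) with h | h
    · rw [abs_of_nonneg h] at hδ
      have h1 : Real.exp (t * (M * τ)) ≤ Real.exp (1 * t * (∑ s, X (w s) δ - M * μ δ)) := by
        apply Real.exp_le_exp.2
        nlinarith
      have h2 := Real.exp_pos (-1 * t * (∑ s, X (w s) δ - M * μ δ))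
      linarith
    · rw [abs_of_neg h] at hδ
      have h1 : Real.exp (t * (M * τ)) ≤ Real.exp (-1 * t * (∑ s, X (w s) δ - M * μ δ)) := by
        apply Real.exp_le_exp.2
        nlinarith
      have h2 := Real.exp_pos (1 * t * (∑ s, X (w s) δ - M * μ δ))
      linarith
  have hsum : c ^ M * Real.exp (t * (M * τ)) ≤
      2 * Fintype.card Δ * (c ^ M * Real.exp (4 * t ^ 2 * M)) := by
    refine le_trans ?_ htot
    calc c ^ M * Real.exp (t * (M * τ)) = ∑ _w : Fin M → W, Real.exp (t * (M * τ)) := by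
          rw [Finset.sum_const, Finset.card_univ, nsmul_eq_mul]
          simp [hc]
      _ ≤ _ := Finset.sum_le_sum fun w _ => hlow w
  have hcM : 0 < c ^ M := by positivity
  have h8 : Real.exp (t * (M * τ)) ≤ 2 * Fintype.card Δ * Real.exp (4 * t ^ 2 * M) := by
    have : c ^ M * Real.exp (t * (M * τ)) ≤
      c ^ M * (2 * Fintype.card Δ * Real.exp (4 * t ^ 2 * M)) := by
      calc _ ≤ _ := hsum
        _ = _ := by ring
    exact le_of_mul_le_mul_left this hcM
  have h9 : Real.exp (t * (M * τ)) = Real.exp (M * τ ^ 2 / 16) * Real.exp (4 * t ^ 2 * M) := by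
    rw [← Real.exp_add]
    congr 1
    rw [ht]; ring
  rw [h9] at h8
  have h10 := le_of_mul_le_mul_right h8 (Real.exp_pos _)
  linarith

/-! ### The Riesz product -/

/-- the sign character of the set `{l | u l = 0}` -/
def chi {m D : ℕ} (u : Fin m → Fin (D + 1)) (δ : Fin m → ℤˣ) : ℝ :=
  ∏ l, if u l = 0 then ((δ l : ℤ) : ℝ) else 1

/-- the imaginary part of `i ^ |{l | u l = 0}|` -/
noncomputable def cf {m D : ℕ} (u : Fin m → Fin (D + 1)) : ℝ :=
  (∏ l, if u l = 0 then Complex.I else 1 : ℂ).im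

lemma chi_mul {m D : ℕ} (u : Fin m → Fin (D + 1)) (ε δ : Fin m → ℤˣ) :
    chi u (ε * δ) = chi u ε * chi u δ := by
  unfold chi
  rw [← Finset.prod_mul_distrib]
  refine Finset.prod_congr rfl fun l _ => ?_
  split_ifs
  · simp
  · simp

lemma abs_unit (v : ℤˣ) : |((v : ℤ) : ℝ)| = 1 := by
  rcases Int.units_eq_one_or v with h | h <;> rw [h] <;> simp

lemma chi_abs {m D : ℕ} (u : Fin m → Fin (D + 1)) (δ : Fin m → ℤˣ) : |chi u δ| = 1 := by
  unfold chi
  rw [Finset.abs_prod]
  refine Finset.prod_eq_one fun l _ => ?_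
  split_ifs
  · exact abs_unit _
  · simp

lemma cf_abs {m D : ℕ} (u : Fin m → Fin (D + 1)) : |cf u| ≤ 1 := by
  unfold cf
  refine (Complex.abs_im_le_norm _).trans ?_
  rw [norm_prod]
  refine (Finset.prod_eq_one fun l _ => ?_).le
  split_ifs <;> simp

lemma cf_chi {m D : ℕ} (u : Fin m → Fin (D + 1)) (δ : Fin m → ℤˣ) :
    cf u * chi u δ = (∏ l, if u l = 0 then Complex.I * (((δ l : ℤ) : ℝ) : ℂ) else 1 : ℂ).im := by
  have h : (∏ l, if u l = 0 then Complex.I * (((δ l : ℤ) : ℝ) : ℂ) else 1 : ℂ) =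
      (∏ l, if u l = 0 then Complex.I else 1 : ℂ) * ((chi u δ : ℝ) : ℂ) := by
    unfold chi
    rw [Complex.ofReal_prod, ← Finset.prod_mul_distrib]
    refine Finset.prod_congr rfl fun l _ => ?_
    split_ifs <;> simp
  rw [h, Complex.im_mul_ofReal]
  rfl

lemma sum_cf_chi {m D : ℕ} (δ : Fin m → ℤˣ) :
    ∑ u : Fin m → Fin (D + 1), cf u * chi u δ =
      (∏ l : Fin m, ((D : ℂ) + Complex.I * (((δ l : ℤ) : ℝ) : ℂ))).im := by
  simp only [cf_chi]
  rw [← Complex.im_sum]
  congr 1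
  have h : ∀ l : Fin m, ((D : ℂ) + Complex.I * (((δ l : ℤ) : ℝ) : ℂ)) =
      ∑ v : Fin (D + 1), if v = 0 then Complex.I * (((δ l : ℤ) : ℝ) : ℂ) else 1 := by
    intro l
    rw [Fin.sum_univ_succ]
    simp [Fin.succ_ne_zero]
    ring
  simp only [h]
  rw [Finset.prod_univ_sum, Fintype.piFinset_univ]

/-- the Riesz product is bounded -/
lemma riesz_bound {D : ℕ} (hD : 0 < D) (δ : Fin (D ^ 2) → ℤˣ) :
    |(∏ l : Fin (D ^ 2), ((D : ℂ) + Complex.I * (((δ l : ℤ) : ℝ) : ℂ))).im| ≤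
      33 / 20 * (D : ℝ) ^ (D ^ 2) := by
  have hD' : (0 : ℝ) < D := by exact_mod_cast hD
  refine (Complex.abs_im_le_norm _).trans ?_
  refine (pow_le_pow_iff_left₀ (norm_nonneg _) (by positivity) two_ne_zero).1 ?_
  rw [norm_prod, ← Finset.prod_pow]
  have h : ∀ l : Fin (D ^ 2), ‖((D : ℂ) + Complex.I * (((δ l : ℤ) : ℝ) : ℂ))‖ ^ 2 =
      (D : ℝ) ^ 2 * (1 + ((D : ℝ) ^ 2)⁻¹) := by
    intro l
    rw [← Complex.normSq_eq_norm_sq, Complex.normSq_apply]
    have h1 : (((δ l : ℤ) : ℝ)) * (((δ l : ℤ) : ℝ)) = 1 := by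
      have := abs_unit (δ l)
      rw [← abs_mul_abs_self, this]; norm_num
    simp
    have h2 : (((δ l : ℤ) : ℝ)) * (((δ l : ℤ) : ℝ)) = 1 := h1
    field_simp
    nlinarith
  simp only [h]
  rw [Finset.prod_const, Finset.card_univ, Fintype.card_fin, mul_pow]
  have h2 : (1 + ((D : ℝ) ^ 2)⁻¹) ^ (D ^ 2) ≤ (33 / 20) ^ 2 := by
    calc (1 + ((D : ℝ) ^ 2)⁻¹) ^ (D ^ 2) ≤ (Real.exp (((D : ℝ) ^ 2)⁻¹)) ^ (D ^ 2) := by
          apply pow_le_pow_left₀ (by positivity)
          have := Real.add_one_le_exp (((D : ℝ) ^ 2)⁻¹)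
          linarith
      _ = Real.exp 1 := by
          rw [← Real.exp_nat_mul]
          congr 1
          push_cast
          field_simp
      _ ≤ _ := by
          have := Real.exp_one_lt_d9
          linarith
  have h3 : ((D : ℝ) ^ 2) ^ (D ^ 2) = ((D : ℝ) ^ (D ^ 2)) ^ 2 := by
    rw [← pow_mul, ← pow_mul, mul_comm]
  rw [h3, mul_pow, mul_comm]
  gcongr

/-- the first order part of the Riesz product -/
lemma riesz_first {m D : ℕ} (k : Fin m) :
    ∑ δ : Fin m → ℤˣ, (∏ l : Fin m, ((D : ℂ) + Complex.I * (((δ l : ℤ) : ℝ) : ℂ))) *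
      (((δ k : ℤ) : ℝ) : ℂ) = (2 : ℂ) ^ m * (D : ℂ) ^ (m - 1) * Complex.I := by
  have h1 : ∀ δ : Fin m → ℤˣ, (∏ l : Fin m, ((D : ℂ) + Complex.I * (((δ l : ℤ) : ℝ) : ℂ))) *
      (((δ k : ℤ) : ℝ) : ℂ) = ∏ l : Fin m, ((D : ℂ) + Complex.I * (((δ l : ℤ) : ℝ) : ℂ)) *
        (if l = k then (((δ l : ℤ) : ℝ) : ℂ) else 1) := by
    intro δ
    rw [Finset.prod_mul_distrib]
    congr 1
    rw [Finset.prod_ite_eq' Finset.univ k (fun l => (((δ l : ℤ) : ℝ) : ℂ))]
    simp
  simp only [h1]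
  have h2 := Finset.prod_univ_sum (fun _ : Fin m => (Finset.univ : Finset ℤˣ))
    (fun l v => ((D : ℂ) + Complex.I * (((v : ℤ) : ℝ) : ℂ)) *
        (if l = k then (((v : ℤ) : ℝ) : ℂ) else 1))
  rw [Fintype.piFinset_univ] at h2
  rw [← h2]
  have huniv : (Finset.univ : Finset ℤˣ) = {1, -1} := by decide
  have h3 : ∀ l : Fin m, ∑ v : ℤˣ, ((D : ℂ) + Complex.I * (((v : ℤ) : ℝ) : ℂ)) *
        (if l = k then (((v : ℤ) : ℝ) : ℂ) else 1) = if l = k then 2 * Complex.I else 2 * (D : ℂ) := by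
    intro l
    rw [huniv, Finset.sum_pair (by decide)]
    split_ifs <;> simp <;> ring
  simp only [h3]
  rw [Finset.prod_ite, Finset.prod_const, Finset.prod_const]
  have h4 : (Finset.univ.filter fun l : Fin m => l = k).card = 1 := by
    rw [Finset.card_eq_one]
    exact ⟨k, by ext; simp⟩
  have h5 : (Finset.univ.filter fun l : Fin m => ¬ l = k).card = m - 1 := by
    have h6 := Finset.card_filter_add_card_filter_not (s := (Finset.univ : Finset (Fin m)))
      (fun l => l = k)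
    rw [h4, Finset.card_univ, Fintype.card_fin] at h6
    omega
  rw [h4, h5]
  have hm : m = (m - 1) + 1 := by have := k.isLt; omega
  conv_rhs => rw [hm]
  rw [mul_pow, pow_succ, Nat.add_sub_cancel]
  ring

/-- A function on the cube with few characters, bounded by `1`, whose first order part is large. -/
lemma exists_function {D N : ℕ} (hD : 0 < D) (hN : 256 * Real.exp (2 * D) * (D ^ 2 + 1) ≤ N) :
    ∃ (w : Fin N → Fin (D ^ 2) → Fin (D + 1)) (a : Fin N → ℝ),
      ∑ s, a s ^ 2 ≤ 1 ∧ (∀ δ, |∑ s, a s * chi (w s) δ| ≤ 1) ∧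
      3 / 8 * (D : ℝ) ≤ expect fun δ : Fin (D ^ 2) → ℤˣ =>
        (∑ s, a s * chi (w s) δ) * ∑ i, ((δ i : ℤ) : ℝ) := by
  have hD' : (0 : ℝ) < D := by exact_mod_cast hD
  have hDm : (0 : ℝ) < (D : ℝ) ^ (D ^ 2) := by positivity
  set b : ℝ := ((D : ℝ) + 1) ^ (D ^ 2) / (D : ℝ) ^ (D ^ 2) with hb
  have hb1 : 1 ≤ b := by
    rw [hb, one_le_div hDm]
    exact pow_le_pow_left₀ hD'.le (by linarith) _
  have hb0 : 0 < b := by linarith
  have hbexp : b ≤ Real.exp D := by
    have h1 : b = (1 + (D : ℝ)⁻¹) ^ (D ^ 2) := by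
      rw [hb, ← div_pow]
      congr 1
      field_simp
    rw [h1]
    calc (1 + (D : ℝ)⁻¹) ^ (D ^ 2) ≤ (Real.exp ((D : ℝ)⁻¹)) ^ (D ^ 2) := by
          apply pow_le_pow_left₀ (by positivity)
          have := Real.add_one_le_exp ((D : ℝ)⁻¹)
          linarith
      _ = Real.exp D := by
          rw [← Real.exp_nat_mul]
          congr 1
          push_cast
          field_simp
  have hb2 : b ^ 2 ≤ Real.exp (2 * D) := by
    calc b ^ 2 ≤ (Real.exp D) ^ 2 := pow_le_pow_left₀ hb0.le hbexp 2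
      _ = Real.exp (2 * D) := by rw [← Real.exp_nat_mul]; push_cast; rfl
  have hNb : 256 * b ^ 2 * (D ^ 2 + 1) ≤ N := by
    refine le_trans ?_ hN
    gcongr
  have hN0 : (0 : ℝ) < N := lt_of_lt_of_le (by positivity) hNb
  set τ : ℝ := 1 / (4 * b) with hτ
  have hτ0 : 0 < τ := by positivity
  have hτ1 : τ ≤ 1 := by
    rw [hτ, div_le_one (by positivity)]
    linarith
  have hexp : 2 * (Fintype.card (Fin (D ^ 2) → ℤˣ) : ℝ) < Real.exp (N * τ ^ 2 / 16) := by
    have h1 : ((D : ℝ) ^ 2 + 1) ≤ N * τ ^ 2 / 16 := by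
      rw [hτ, div_pow, mul_pow, one_pow, mul_one_div, div_div, le_div_iff₀ (by positivity)]
      linarith
    have h2 : (2 : ℝ) * (Fintype.card (Fin (D ^ 2) → ℤˣ) : ℝ) = 2 ^ (D ^ 2 + 1) := by
      simp
      ring
    rw [h2]
    calc (2 : ℝ) ^ (D ^ 2 + 1) < (Real.exp 1) ^ (D ^ 2 + 1) := by
          apply pow_lt_pow_left₀ _ (by norm_num) (by omega)
          have := Real.exp_one_gt_d9
          linarith
      _ = Real.exp ((D : ℝ) ^ 2 + 1) := by
          rw [← Real.exp_nat_mul]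
          congr 1
          push_cast
          ring
      _ ≤ _ := Real.exp_le_exp.2 h1
  set R : (Fin (D ^ 2) → ℤˣ) → ℝ := fun δ =>
    (∏ l : Fin (D ^ 2), ((D : ℂ) + Complex.I * (((δ l : ℤ) : ℝ) : ℂ))).im with hR
  obtain ⟨w, hw⟩ := sampling (W := Fin (D ^ 2) → Fin (D + 1)) (Δ := Fin (D ^ 2) → ℤˣ)
    (fun u δ => cf u * chi u δ)
    (fun u δ => by rw [abs_mul, chi_abs, mul_one]; exact cf_abs u)
    (fun δ => R δ / ((D : ℝ) + 1) ^ (D ^ 2))
    (fun δ => by
      rw [sum_cf_chi]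
      have h1 : (Fintype.card (Fin (D ^ 2) → Fin (D + 1)) : ℝ) = ((D : ℝ) + 1) ^ (D ^ 2) := by
        simp
      rw [h1, mul_div_cancel₀]
      positivity)
    N τ hτ0 hτ1 hexp
  set F : (Fin (D ^ 2) → ℤˣ) → ℝ := fun δ => ∑ s, (b / (2 * N) * cf (w s)) * chi (w s) δ with hFdef
  have hF : ∀ δ, F δ = b / (2 * N) * ∑ s, cf (w s) * chi (w s) δ := by
    intro δ
    rw [hFdef]
    simp only
    rw [Finset.mul_sum]
    refine Finset.sum_congr rfl fun s _ => ?_
    ring
  have herr : ∀ δ, |F δ - R δ / (2 * (D : ℝ) ^ (D ^ 2))| ≤ 1 / 8 := by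
    intro δ
    have h1 : F δ - R δ / (2 * (D : ℝ) ^ (D ^ 2)) = b / (2 * N) *
        (∑ s, cf (w s) * chi (w s) δ - N * (R δ / ((D : ℝ) + 1) ^ (D ^ 2))) := by
      rw [hF, mul_sub]
      congr 1
      rw [hb]
      field_simp
    rw [h1, abs_mul, abs_of_pos (by positivity)]
    calc b / (2 * N) * |∑ s, cf (w s) * chi (w s) δ - N * (R δ / ((D : ℝ) + 1) ^ (D ^ 2))|
        ≤ b / (2 * N) * (N * τ) := mul_le_mul_of_nonneg_left (hw δ) (by positivity)
      _ = 1 / 8 := by
          rw [hτ]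
          field_simp
          norm_num
  refine ⟨w, fun s => b / (2 * N) * cf (w s), ?_, ?_, ?_⟩
  · calc ∑ s, (b / (2 * N) * cf (w s)) ^ 2 ≤ ∑ _s : Fin N, (b / (2 * N)) ^ 2 := by
          refine Finset.sum_le_sum fun s _ => ?_
          rw [mul_pow]
          have h1 : cf (w s) ^ 2 ≤ 1 := by
            rw [← sq_abs]
            have := cf_abs (w s)
            nlinarith [abs_nonneg (cf (w s))]
          nlinarith [sq_nonneg (b / (2 * N))]
      _ = b ^ 2 / (4 * N) := by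
          rw [Finset.sum_const, Finset.card_univ, Fintype.card_fin, nsmul_eq_mul]
          field_simp
          norm_num
      _ ≤ 1 := by
          rw [div_le_one (by positivity)]
          have h2 : b ^ 2 ≤ 256 * b ^ 2 * ((D : ℝ) ^ 2 + 1) := by nlinarith [sq_nonneg b, sq_nonneg (D : ℝ)]
          linarith
  · intro δ
    have h1 := herr δ
    have h2 : |R δ / (2 * (D : ℝ) ^ (D ^ 2))| ≤ 33 / 40 := by
      rw [abs_div, abs_of_pos (by positivity : (0 : ℝ) < 2 * (D : ℝ) ^ (D ^ 2)),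
        div_le_iff₀ (by positivity)]
      have := riesz_bound hD δ
      calc |R δ| ≤ 33 / 20 * (D : ℝ) ^ (D ^ 2) := this
        _ = _ := by ring
    have h3 : |F δ| ≤ |F δ - R δ / (2 * (D : ℝ) ^ (D ^ 2))| + |R δ / (2 * (D : ℝ) ^ (D ^ 2))| := by
      have := abs_add_le (F δ - R δ / (2 * (D : ℝ) ^ (D ^ 2))) (R δ / (2 * (D : ℝ) ^ (D ^ 2)))
      rwa [sub_add_cancel] at this
    show |F δ| ≤ 1
    linarith
  · show 3 / 8 * (D : ℝ) ≤ expect fun δ => F δ * ∑ i, ((δ i : ℤ) : ℝ)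
    set S : (Fin (D ^ 2) → ℤˣ) → ℝ := fun δ => ∑ i, ((δ i : ℤ) : ℝ) with hS
    have h1 : ∀ δ, (R δ / (2 * (D : ℝ) ^ (D ^ 2))) * S δ - (S δ ^ 2 / D + D) / 16 ≤ F δ * S δ := by
      intro δ
      have h2 := abs_le.1 (herr δ)
      have h3 : |(F δ - R δ / (2 * (D : ℝ) ^ (D ^ 2))) * S δ| ≤ 1 / 8 * |S δ| := by
        rw [abs_mul]
        exact mul_le_mul_of_nonneg_right (herr δ) (abs_nonneg _)
      have h4 : |S δ| ≤ (S δ ^ 2 / D + D) / 2 := by
        have h5 : 0 ≤ (|S δ| - D) ^ 2 / D := by positivity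
        have h6 : (|S δ| - D) ^ 2 / D = S δ ^ 2 / D + D - 2 * |S δ| := by
          rw [sub_sq, sq_abs]
          field_simp
          ring
        linarith
      have h7 := (abs_le.1 h3).1
      nlinarith
    have h2 : expect (fun δ => (R δ / (2 * (D : ℝ) ^ (D ^ 2))) * S δ - (S δ ^ 2 / D + D) / 16) ≤
        expect fun δ => F δ * S δ := by
      unfold expect
      rw [smul_eq_mul, smul_eq_mul]
      exact mul_le_mul_of_nonneg_left (Finset.sum_le_sum fun δ _ => h1 δ) (by positivity)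
    refine le_trans (le_of_eq ?_) h2
    have h3 : ∑ δ : Fin (D ^ 2) → ℤˣ, R δ * S δ = (D : ℝ) ^ 2 * 2 ^ (D ^ 2) * (D : ℝ) ^ (D ^ 2 - 1) := by
      have h4 : ∀ δ, R δ * S δ = ∑ k : Fin (D ^ 2),
          ((∏ l : Fin (D ^ 2), ((D : ℂ) + Complex.I * (((δ l : ℤ) : ℝ) : ℂ))) *
            (((δ k : ℤ) : ℝ) : ℂ)).im := by
        intro δ
        rw [hS, hR]
        simp only
        rw [Finset.mul_sum]
        refine Finset.sum_congr rfl fun k _ => ?_
        rw [Complex.im_mul_ofReal]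
      simp only [h4]
      rw [Finset.sum_comm]
      have h5 : ∀ k : Fin (D ^ 2), ∑ δ : Fin (D ^ 2) → ℤˣ,
          ((∏ l : Fin (D ^ 2), ((D : ℂ) + Complex.I * (((δ l : ℤ) : ℝ) : ℂ))) *
            (((δ k : ℤ) : ℝ) : ℂ)).im = 2 ^ (D ^ 2) * (D : ℝ) ^ (D ^ 2 - 1) := by
        intro k
        rw [← Complex.im_sum, riesz_first k]
        have h6 : (2 : ℂ) ^ (D ^ 2) * (D : ℂ) ^ (D ^ 2 - 1) * Complex.I =
            (((2 : ℝ) ^ (D ^ 2) * (D : ℝ) ^ (D ^ 2 - 1) : ℝ) : ℂ) * Complex.I := by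
          push_cast; rfl
        rw [h6, Complex.mul_I_im, Complex.ofReal_re]
      simp only [h5]
      rw [Finset.sum_const, Finset.card_univ, Fintype.card_fin, nsmul_eq_mul]
      push_cast
      ring
    have h4 : ∑ δ : Fin (D ^ 2) → ℤˣ, S δ ^ 2 = 2 ^ (D ^ 2) * (D : ℝ) ^ 2 := by
      have h5 := sum_sq (1 : Fin (D ^ 2) → ℤˣ)
      simp only [Pi.one_apply, Units.val_one, Int.cast_one, one_mul] at h5
      rw [hS]
      simp only
      rw [h5]
      push_cast
      ring
    unfold expect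
    rw [smul_eq_mul, Finset.sum_sub_distrib]
    have h5 : ∑ δ : Fin (D ^ 2) → ℤˣ, R δ / (2 * (D : ℝ) ^ (D ^ 2)) * S δ =
        (∑ δ : Fin (D ^ 2) → ℤˣ, R δ * S δ) / (2 * (D : ℝ) ^ (D ^ 2)) := by
      rw [Finset.sum_div]
      refine Finset.sum_congr rfl fun δ _ => ?_
      ring
    have h6 : ∑ δ : Fin (D ^ 2) → ℤˣ, (S δ ^ 2 / D + D) / 16 =
        ((∑ δ : Fin (D ^ 2) → ℤˣ, S δ ^ 2) / D + 2 ^ (D ^ 2) * D) / 16 := by
      rw [← Finset.sum_div, Finset.sum_add_distrib, ← Finset.sum_div]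
      simp
    rw [h5, h6, h3, h4]
    have h7 : (D : ℝ) ^ (D ^ 2) = (D : ℝ) ^ (D ^ 2 - 1) * D := by
      rw [← pow_succ]
      congr 1
      have : 0 < D ^ 2 := by positivity
      omega
    rw [h7]
    have h8 : (0 : ℝ) < (D : ℝ) ^ (D ^ 2 - 1) := by positivity
    field_simp
    ring

/-- The general construction: in dimension `n`, with `N ≤ n` coordinates and any `D` with
`256 e^(2D) (D^2 + 1) ≤ N`. -/
lemma trade {n N D : ℕ} (hD : 0 < D) (hN : 256 * Real.exp (2 * D) * (D ^ 2 + 1) ≤ N)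
    (hNn : N ≤ n) : ∃ K : Set (E n), IsSymmConvexBody K ∧
    MMstar K ≤ 1 + N / √n ∧ ENNReal.ofReal (3 / 8 * D) ≤ Kconv K := by
  have hN0 : 0 < N := by
    have h1 : (0 : ℝ) < N := lt_of_lt_of_le (by positivity) hN
    exact_mod_cast h1
  have hn : 0 < n := lt_of_lt_of_le hN0 hNn
  obtain ⟨w, a, h1, h2, h3⟩ := exists_function hD hN
  set φ : Fin N ↪ Fin n := Fin.castLEEmb hNn
  refine ⟨body φ fun s => chi (w s), body_symmConvex φ _,
    MMstar_body_le hn φ _ fun s δ => chi_abs _ _, ?_⟩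
  exact (ENNReal.ofReal_le_ofReal h3).trans (Kconv_body_ge φ _ (fun s δ => chi_abs _ _)
    (fun s ε δ => chi_mul _ _ _) a h1 h2)

lemma log_rate {n : ℕ} (hn : 1 ≤ n) : ∃ K : Set (E n), IsSymmConvexBody K ∧
    MMstar K ≤ 1 + (n : ℝ) ^ (-(1 / 4) : ℝ) ∧ ENNReal.ofReal (Real.log n / 100) ≤ Kconv K := by
  have hn0 : (0 : ℝ) < n := by exact_mod_cast hn
  have hn1 : (1 : ℝ) ≤ n := by exact_mod_cast hn
  set L : ℝ := Real.log n with hL
  have hL0 : 0 ≤ L := Real.log_nonneg hn1
  have hq : (n : ℝ) ^ ((1 / 4 : ℝ)) / √n = (n : ℝ) ^ (-(1 / 4) : ℝ) := by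
    rw [Real.sqrt_eq_rpow, ← Real.rpow_sub hn0]
    norm_num
  rcases le_or_gt L 100 with hl | hl
  · -- small dimensions: the Euclidean ball cut by one coordinate
    set φ : Fin 0 ↪ Fin n := Fin.castLEEmb (Nat.zero_le n)
    refine ⟨body (m := 0) φ fun _ _ => 1, body_symmConvex φ _, ?_, ?_⟩
    · refine (MMstar_body_le hn φ _ fun s δ => abs_one).trans ?_
      have : (0 : ℝ) ≤ (n : ℝ) ^ (-(1 / 4) : ℝ) := by positivity
      simpa using this
    · refine le_trans ?_ (one_le_Kconv hn (body_symmConvex φ _))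
      rw [← ENNReal.ofReal_one]
      apply ENNReal.ofReal_le_ofReal
      linarith
  · set N : ℕ := ⌊(n : ℝ) ^ ((1 / 4 : ℝ))⌋₊ with hN
    set D : ℕ := ⌊L / 24⌋₊ with hD
    have hq0 : (0 : ℝ) ≤ (n : ℝ) ^ ((1 / 4 : ℝ)) := by positivity
    have hN1 : (N : ℝ) ≤ (n : ℝ) ^ ((1 / 4 : ℝ)) := Nat.floor_le hq0
    have hN2 : (n : ℝ) ^ ((1 / 4 : ℝ)) - 1 < N := Nat.sub_one_lt_floor _
    have hD1 : (D : ℝ) ≤ L / 24 := Nat.floor_le (by positivity)
    have hD2 : L / 24 - 1 < D := Nat.sub_one_lt_floor _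
    have hD0 : 0 < D := by
      have h1 : (0 : ℝ) < D := by linarith
      exact_mod_cast h1
    have hNn : N ≤ n := by
      have h1 : (n : ℝ) ^ ((1 / 4 : ℝ)) ≤ (n : ℝ) ^ ((1 : ℝ)) :=
        Real.rpow_le_rpow_of_exponent_le hn1 (by norm_num)
      rw [Real.rpow_one] at h1
      exact_mod_cast hN1.trans h1
    have hexp : (n : ℝ) ^ ((1 / 4 : ℝ)) = Real.exp (L / 4) := by
      rw [Real.rpow_def_of_pos hn0, hL]
      congr 1
      ring
    have hsq : (D : ℝ) ^ 2 + 1 ≤ Real.exp (L / 24) := by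
      have h1 : (D : ℝ) ^ 2 ≤ (L / 24) ^ 2 := pow_le_pow_left₀ (Nat.cast_nonneg _) hD1 2
      have h2 := Real.pow_div_factorial_le_exp (L / 24) (by positivity) 3
      have h3 := Real.quadratic_le_exp_of_nonneg (by positivity : 0 ≤ L / 24)
      norm_num [Nat.factorial] at h2
      have h4 : 4 ≤ L / 24 := by linarith
      set y := L / 24
      have h5 : y ^ 2 + 1 ≤ Real.exp y := by
        have h6 := Real.sum_le_exp_of_nonneg (x := y) (by linarith) 4
        simp only [Finset.sum_range_succ, Finset.sum_range_zero, Nat.factorial] at h6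
        norm_num at h6
        nlinarith [sq_nonneg y, mul_nonneg (sq_nonneg y) (by linarith : (0 : ℝ) ≤ y - 4)]
      linarith
    have hbig : 256 * Real.exp (2 * D) * ((D : ℝ) ^ 2 + 1) ≤ N := by
      have h1 : Real.exp (2 * D) ≤ Real.exp (L / 12) := Real.exp_le_exp.2 (by linarith)
      have h2 : 256 * Real.exp (2 * D) * ((D : ℝ) ^ 2 + 1) ≤ 256 * Real.exp (L / 8) := by
        calc 256 * Real.exp (2 * D) * ((D : ℝ) ^ 2 + 1)
            ≤ 256 * Real.exp (L / 12) * Real.exp (L / 24) := by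
              apply mul_le_mul _ hsq (by positivity) (by positivity)
              linarith
          _ = 256 * Real.exp (L / 8) := by
              rw [mul_assoc, ← Real.exp_add]
              congr 2
              ring
      have h3 : Real.exp (L / 4) = Real.exp (L / 8) * Real.exp (L / 8) := by
        rw [← Real.exp_add]
        congr 1
        ring
      have h4 : 257 ≤ Real.exp (L / 8) := by
        have h5 : Real.exp 12 ≤ Real.exp (L / 8) := Real.exp_le_exp.2 (by linarith)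
        have h6 : (257 : ℝ) ≤ Real.exp 12 := by
          have h7 : Real.exp 12 = (Real.exp 1) ^ 12 := by
            rw [← Real.exp_nat_mul]; norm_num
          rw [h7]
          have h8 : (2 : ℝ) ≤ Real.exp 1 := by
            have := Real.exp_one_gt_d9
            linarith
          calc (257 : ℝ) ≤ 2 ^ 12 := by norm_num
            _ ≤ _ := pow_le_pow_left₀ (by norm_num) h8 12
        linarith
      rw [hexp, h3] at hN2
      nlinarith
    obtain ⟨K, hK, h1, h2⟩ := trade hD0 hbig hNn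
    refine ⟨K, hK, h1.trans ?_, le_trans (ENNReal.ofReal_le_ofReal ?_) h2⟩
    · have h5 : (N : ℝ) / √n ≤ (n : ℝ) ^ ((1 / 4 : ℝ)) / √n := by gcongr
      rw [hq] at h5
      linarith
    · linarith

/-- For every `C` and `ε > 0`, in all large dimensions there are bodies with `MM* ≤ 1 + ε` and
K-convexity constant larger than `C`. -/
lemma large {C ε : ℝ} (hε : 0 < ε) : ∃ N : ℕ, ∀ n : ℕ, N ≤ n → ∃ K : Set (E n),
    IsSymmConvexBody K ∧ MMstar K ≤ 1 + ε ∧ ENNReal.ofReal C < Kconv K := by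
  have h1 : Filter.Tendsto (fun n : ℕ => (n : ℝ) ^ (-(1 / 4) : ℝ)) Filter.atTop (nhds 0) :=
    (tendsto_rpow_neg_atTop (by norm_num)).comp tendsto_natCast_atTop_atTop
  have h2 : Filter.Tendsto (fun n : ℕ => Real.log n / 100) Filter.atTop Filter.atTop :=
    (Real.tendsto_log_atTop.comp tendsto_natCast_atTop_atTop).atTop_div_const (by norm_num)
  have h3 := ((h1.eventually_le_const hε).and
    ((h2.eventually_gt_atTop (max C 0)).and (Filter.eventually_ge_atTop 1)))
  obtain ⟨N, hN⟩ := Filter.eventually_atTop.1 h3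
  refine ⟨N, fun n hn => ?_⟩
  obtain ⟨h4, h5, h6⟩ := hN n hn
  obtain ⟨K, hK, h7, h8⟩ := log_rate h6
  refine ⟨K, hK, h7.trans (by linarith), lt_of_lt_of_le ?_ h8⟩
  rw [ENNReal.ofReal_lt_ofReal_iff (lt_of_le_of_lt (le_max_right _ _) h5)]
  exact lt_of_le_of_lt (le_max_left _ _) h5

/-- **The gap between the K-convexity constant and the `MM*` product.**
(a) For every `n ≥ 1` there is a symmetric convex body `K ⊂ ℝⁿ` with
`1 ≤ MM*(K) ≤ 1 + n^(-1/4)` and `K(X_K) ≥ (log n) / 100`, so that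
`K(X_K) ≥ (log n) / 200 · MM*(K)`.
(b) `MM*` does not control the K-convexity constant, not even near its least value `1`: for every
nondecreasing function `Φ` and every `ε > 0`, in every sufficiently large dimension there is `K`
with `MM*(K) ≤ 1 + ε` and `K(X_K) > Φ(MM*(K))`. With `Φ(t) = C t` this is the negated form of
Q1. -/
theorem result :
    (∀ n : ℕ, 1 ≤ n → ∃ K : Set (E n), IsSymmConvexBody K ∧
      1 ≤ MMstar K ∧ MMstar K ≤ 1 + (n : ℝ) ^ (-(1 / 4) : ℝ) ∧
      ENNReal.ofReal (Real.log n / 100) ≤ Kconv K ∧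
      ENNReal.ofReal (Real.log n / 200 * MMstar K) ≤ Kconv K) ∧
    (∀ (Φ : ℝ → ℝ) (ε : ℝ), Monotone Φ → 0 < ε → ∃ N : ℕ, ∀ n : ℕ, N ≤ n → ∃ K : Set (E n),
      IsSymmConvexBody K ∧ MMstar K ≤ 1 + ε ∧ ENNReal.ofReal (Φ (MMstar K)) < Kconv K) := by
  refine ⟨fun n hn => ?_, fun Φ ε hΦ hε => ?_⟩
  · obtain ⟨K, hK, h1, h2⟩ := log_rate hn
    refine ⟨K, hK, one_le_MMstar hn hK, h1, h2, le_trans (ENNReal.ofReal_le_ofReal ?_) h2⟩
    have hn1 : (1 : ℝ) ≤ n := by exact_mod_cast hn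
    have h3 : (n : ℝ) ^ (-(1 / 4) : ℝ) ≤ 1 := Real.rpow_le_one_of_one_le_of_nonpos hn1 (by norm_num)
    have h4 : 0 ≤ Real.log n := Real.log_nonneg hn1
    nlinarith
  · obtain ⟨N, hN⟩ := large (C := Φ (1 + ε)) hε
    refine ⟨N, fun n hn => ?_⟩
    obtain ⟨K, hK, h1, h2⟩ := hN n hn
    exact ⟨K, hK, h1, lt_of_le_of_lt (ENNReal.ofReal_le_ofReal (hΦ h1)) h2⟩

end

end Pool.Agent.Results.MP_1453e0_an.OptimalGap
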